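import Pool.Agent.Y748.SR.Stm

/-!
# Lattice sums of the sine kernel (project SR, `S_LAT`)
-/

set_option autoImplicit false

open MeasureTheory AddCircle
open scoped Real ComplexConjugate

namespace Pool.Agent.Y297.SR
open Pool.Agent.Y748.SR

/-- Fourier transform of the indicator function of an interval of length one -/
theorem int_exp (u : ℝ) :
    ∫ t in (-(1 / 2) : ℝ)..(-(1 / 2) + 1), Complex.exp (2 * π * Complex.I * u * t) =
      ((sn u : ℝ) : ℂ) := by
  unfold sn
  by_cases hu : u = 0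
  · subst hu
    simp [Real.sinc_zero]
  · have hc : (2 * π * Complex.I * u : ℂ) ≠ 0 := by
      simp [hu, Real.pi_ne_zero]
    have hpu : π * u ≠ 0 := mul_ne_zero Real.pi_ne_zero hu
    rw [integral_exp_mul_complex hc, Real.sinc_of_ne_zero hpu]
    have h1 : (2 * π * Complex.I * u : ℂ) * ((-(1 / 2) + 1 : ℝ) : ℂ) = (π * u : ℝ) * Complex.I := by
      push_cast
      ring
    have h2 : (2 * π * Complex.I * u : ℂ) * ((-(1 / 2) : ℝ) : ℂ) = -((π * u : ℝ) : ℂ) * Complex.I := by
      push_cast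
      ring
    rw [h1, h2]
    have h3 := Complex.two_sin ((π * u : ℝ) : ℂ)
    have h4 : (π : ℂ) ≠ 0 := by exact_mod_cast Real.pi_ne_zero
    have h5 : (u : ℂ) ≠ 0 := by exact_mod_cast hu
    have h6 : Complex.exp ((π * u : ℝ) * Complex.I) - Complex.exp (-((π * u : ℝ) : ℂ) * Complex.I) =
        2 * Complex.sin ((π * u : ℝ) : ℂ) * Complex.I := by
      rw [h3]
      ring_nf
      rw [Complex.I_sq]
      ring
    rw [h6]
    push_cast
    field_simp

/-- the exponential on the circle, cut at `1/2` -/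
noncomputable def F (X : ℝ) : AddCircle (1 : ℝ) → ℂ :=
  liftIoc 1 (-(1 / 2)) (fun t : ℝ => Complex.exp (2 * π * Complex.I * X * t))

theorem F_apply (X : ℝ) (z : AddCircle (1 : ℝ)) :
    F X z = Complex.exp (2 * π * Complex.I * X * ((measurableEquivIoc 1 (-(1 / 2)) z : ℝ) : ℂ)) :=
  rfl

theorem F_meas (X : ℝ) : Measurable (F X) := by
  have h1 : Measurable fun z : AddCircle (1 : ℝ) => ((measurableEquivIoc 1 (-(1 / 2)) z : ℝ)) :=
    measurable_subtype_coe.comp (measurableEquivIoc 1 (-(1 / 2))).measurable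
  have h2 : Measurable fun z : AddCircle (1 : ℝ) =>
      Complex.exp (2 * π * Complex.I * X * ((measurableEquivIoc 1 (-(1 / 2)) z : ℝ) : ℂ)) := by
    fun_prop
  exact h2

theorem F_norm (X : ℝ) (z : AddCircle (1 : ℝ)) : ‖F X z‖ = 1 := by
  rw [F_apply]
  have h1 : (2 * π * Complex.I * X * ((measurableEquivIoc 1 (-(1 / 2)) z : ℝ) : ℂ)) =
      ((2 * π * X * (measurableEquivIoc 1 (-(1 / 2)) z : ℝ) : ℝ) : ℂ) * Complex.I := by
    push_cast
    ring
  rw [h1, Complex.norm_exp_ofReal_mul_I]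

theorem F_conj (X Y : ℝ) (z : AddCircle (1 : ℝ)) : conj (F X z) * F Y z = F (Y - X) z := by
  rw [F_apply, F_apply, F_apply, ← Complex.exp_conj, ← Complex.exp_add]
  congr 1
  simp only [map_mul, Complex.conj_ofReal, Complex.conj_I, map_ofNat]
  push_cast
  ring

theorem F_coeff (X : ℝ) (n : ℤ) : fourierCoeff (F X) n = ((sn (X - n) : ℝ) : ℂ) := by
  unfold F
  rw [fourierCoeff_liftIoc_eq, fourierCoeffOn_eq_integral]
  have h1 : (1 : ℝ) / (-(1 / 2) + 1 - -(1 / 2)) = 1 := by norm_num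
  rw [h1, one_smul, ← int_exp]
  congr 1
  funext t
  rw [fourier_coe_apply, smul_eq_mul, ← Complex.exp_add]
  congr 1
  push_cast
  ring

theorem F_memLp (X : ℝ) : MemLp (F X) 2 (haarAddCircle (T := (1 : ℝ))) :=
  MemLp.of_bound (F_meas X).aestronglyMeasurable 1 (Filter.Eventually.of_forall fun z =>
    (F_norm X z).le)

theorem t_LAT : S_LAT := by
  intro x y s _ _
  have h1 := (fourierBasis (T := (1 : ℝ))).hasSum_inner_mul_inner ((F_memLp (x - s)).toLp (F (x - s)))
    ((F_memLp (y - s)).toLp (F (y - s)))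
  have h2 : ∀ (X : ℝ) (n : ℤ), inner ℂ (fourierBasis (T := (1 : ℝ)) n) ((F_memLp X).toLp (F X)) =
      ((sn (X - n) : ℝ) : ℂ) := by
    intro X n
    rw [← HilbertBasis.repr_apply_apply, fourierBasis_repr, ← F_coeff]
    unfold fourierCoeff
    refine integral_congr_ae ?_
    filter_upwards [(F_memLp X).coeFn_toLp] with z hz
    rw [hz]
  have h3 : inner ℂ ((F_memLp (x - s)).toLp (F (x - s))) ((F_memLp (y - s)).toLp (F (y - s))) =
      ((sn (x - y) : ℝ) : ℂ) := by
    rw [L2.inner_def]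
    have h4 : ∫ z, F (y - x) z ∂(haarAddCircle (T := (1 : ℝ))) = ((sn (x - y) : ℝ) : ℂ) := by
      have h5 := F_coeff (y - x) 0
      unfold fourierCoeff at h5
      simp only [neg_zero, fourier_zero, one_smul, Int.cast_zero, sub_zero] at h5
      rw [h5]
      unfold sn
      rw [show π * (y - x) = -(π * (x - y)) by ring, Real.sinc_neg]
    rw [← h4]
    refine integral_congr_ae ?_
    filter_upwards [(F_memLp (x - s)).coeFn_toLp, (F_memLp (y - s)).coeFn_toLp] with z hz hz'
    rw [hz, hz']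
    have h6 : inner ℂ (F (x - s) z) (F (y - s) z) = conj (F (x - s) z) * F (y - s) z := by
      rw [RCLike.inner_apply, mul_comm]
    rw [h6, F_conj]
    congr 1
    ring
  rw [h3] at h1
  have h7 : (fun n : ℤ => inner ℂ ((F_memLp (x - s)).toLp (F (x - s)))
      (fourierBasis (T := (1 : ℝ)) n) * inner ℂ (fourierBasis (T := (1 : ℝ)) n)
      ((F_memLp (y - s)).toLp (F (y - s)))) =
      fun n : ℤ => ((sn (x - (s + n)) * sn (y - (s + n)) : ℝ) : ℂ) := by
    funext n
    rw [← inner_conj_symm, h2, h2, Complex.conj_ofReal, ← Complex.ofReal_mul]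
    congr 3 <;> ring_nf
  rw [h7] at h1
  exact_mod_cast h1

end Pool.Agent.Y297.SR
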